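import Pool.Agent.Lib.MP_1308e3_lc.NoComp
import Pool.Agent.Lib.MP_1308e3_lc.OrdClass

/-!
# A computable field with a low ordering none of whose computable copies has a computable ordering
-/

set_option autoImplicit false

namespace Pool.Agent.Results.MP_1308e3_lc.NoCopyWithComputableOrdering

open Pool.Agent.Lib.MP_1308e3_lc

/-- There are a computable field `F` (presented by `ν : F → ℕ`) and a low ordering of `F` such
that no ordered field `K` which is isomorphic to `F` as a field (by an isomorphism which need
not preserve the order) has a presentation in which the domain, the field operations and the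
ordering are computable. -/
theorem result :
    ∃ (F : Type) (_ : Field F) (_ : LinearOrder F) (_ : IsStrictOrderedRing F) (ν : F → ℕ),
      IsComputablePresentation ν ∧ IsLow (orderSet ν) ∧
      ∀ (K : Type) [Field K] [LinearOrder K] [IsStrictOrderedRing K] (μ : K → ℕ),
        IsComputablePresentation μ → ComputablePred (fun n => n ∈ orderSet μ) →
        IsEmpty (F ≃+* K) := by
  obtain ⟨h1, h2, h3⟩ := exists_low_order nuY_presentation ⟨inferInstance, inferInstance⟩
  refine ⟨FY, inferInstance, h1, h2, nuY, nuY_presentation, h3, ?_⟩
  intro K _ _ _ μ hK hord
  exact no_computable_ordering hK hord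

end Pool.Agent.Results.MP_1308e3_lc.NoCopyWithComputableOrdering
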